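import Pool.Agent.Helper48.AED.Spec2

set_option autoImplicit false

open Finset

namespace Pool.Agent.Helper65.AED.DOWN

open Pool.AED48

theorem main : S_DOWN := by
  intro m d q hq
  obtain ⟨η, hη⟩ := hq.plane
  rcases Nat.eq_zero_or_pos m with rfl | hm
  · exact ⟨fun i => i.elim0, ⟨fun i => i.elim0, fun i => i.elim0, fun i => i.elim0⟩⟩
  have hη0 : η ≠ 0 := by
    rintro rfl
    have := hη ⟨0, hm⟩
    simp at this
  let S : Submodule ℝ (EuclideanSpace ℝ (Fin (d + 1))) := (Submodule.span ℝ {η})ᗮ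
  have hfin : Module.finrank ℝ S = d := by
    haveI : Fact (Module.finrank ℝ (EuclideanSpace ℝ (Fin (d + 1))) = d + 1) :=
      ⟨by simp⟩
    exact Submodule.finrank_orthogonal_span_singleton hη0
  let e : S ≃ₗᵢ[ℝ] EuclideanSpace ℝ (Fin d) :=
    ((stdOrthonormalBasis ℝ S).reindex (finCongr hfin)).repr
  have hmem : ∀ i, q i - q ⟨0, hm⟩ ∈ S := by
    intro i
    rw [Submodule.mem_orthogonal_singleton_iff_inner_right, inner_sub_right, hη, hη, sub_self]
  have hd : ∀ i j, dist (e ⟨q i - q ⟨0, hm⟩, hmem i⟩) (e ⟨q j - q ⟨0, hm⟩, hmem j⟩) =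
      dist (q i) (q j) := by
    intro i j
    rw [e.dist_map, Subtype.dist_eq]
    exact dist_sub_right _ _ _
  refine ⟨fun i => e ⟨q i - q ⟨0, hm⟩, hmem i⟩, ⟨?_, ?_, ?_⟩⟩
  · intro i j hij
    have h1 : dist (q i) (q j) = 0 := by
      rw [← hd]; exact dist_eq_zero.2 hij
    exact hq.cfg.inj (dist_eq_zero.1 h1)
  · intro i j
    rw [hd]; exact hq.cfg.le_one i j
  · intro i j k h1 h2 h3
    rw [hd, hd, hd]; exact hq.cfg.triple i j k h1 h2 h3

end Pool.Agent.Helper65.AED.DOWN
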