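import Pool.Agent.Helper48.AED.Spec2

set_option autoImplicit false

open Finset

namespace Pool.Agent.Helper65.AED.PENT

open Pool.AED48

noncomputable section

def c1 : ℝ := (√5 - 1) / 4
def c2 : ℝ := -(√5 + 1) / 4
def s1 : ℝ := √((5 + √5) / 8)
def s2 : ℝ := √((5 - √5) / 8)
def r : ℝ := √((5 - √5) / 10)
def h : ℝ := √(√5 / 10)

def c : Fin 5 → ℝ := ![1, c1, c2, c2, c1]
def s : Fin 5 → ℝ := ![0, s1, s2, -s2, -s1]

def q (i : Fin 5) : EuclideanSpace ℝ (Fin 3) := !₂[r * c i, r * s i, h]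

lemma five : √5 * √5 = (5 : ℝ) := Real.mul_self_sqrt (by norm_num)

lemma five_lt : √5 < 3 := by
  rw [Real.sqrt_lt' (by norm_num)]; norm_num

lemma two_lt : 2 < √5 := by
  rw [Real.lt_sqrt (by norm_num)]; norm_num

lemma hs1 : s1 * s1 = (5 + √5) / 8 := Real.mul_self_sqrt (by positivity)
lemma hs2 : s2 * s2 = (5 - √5) / 8 := Real.mul_self_sqrt (by have := five_lt; linarith)
lemma hr : r * r = (5 - √5) / 10 := Real.mul_self_sqrt (by have := five_lt; linarith)
lemma hh : h * h = √5 / 10 := Real.mul_self_sqrt (by positivity)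

lemma hs12 : s1 * s2 = √5 / 4 := by
  have h1 : 0 ≤ s1 * s2 := by unfold s1 s2; positivity
  have h2 : (s1 * s2) ^ 2 = (√5 / 4) ^ 2 := by
    calc (s1 * s2) ^ 2 = (s1 * s1) * (s2 * s2) := by ring
      _ = (√5 / 4) ^ 2 := by
        rw [hs1, hs2]
        have := five
        nlinarith
  have h3 : 0 ≤ √5 / 4 := by positivity
  exact (sq_eq_sq₀ h1 h3).1 h2

lemma key (i j : Fin 5) : c i * c j + s i * s j = c (i - j) := by
  have h0 := five
  have h1 := hs1
  have h2 := hs2
  have h3 := hs12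
  have e11 : c1 * c1 = (6 - 2 * √5) / 16 := by unfold c1; nlinarith
  have e22 : c2 * c2 = (6 + 2 * √5) / 16 := by unfold c2; nlinarith
  have e12 : c1 * c2 = -1 / 4 := by unfold c1 c2; nlinarith
  have e1 : c1 = (√5 - 1) / 4 := rfl
  have e2 : c2 = -(√5 + 1) / 4 := rfl
  have e12' : c2 * c1 = -1 / 4 := by rw [mul_comm]; exact e12
  have h3' : s2 * s1 = √5 / 4 := by rw [mul_comm]; exact h3
  fin_cases i <;> fin_cases j <;> simp [c, s] <;> linarith

lemma dist_sq (i j : Fin 5) : dist (q i) (q j) ^ 2 = 2 * (r * r) * (1 - c (i - j)) := by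
  have h1 := key i i
  have h2 := key j j
  have h3 := key i j
  rw [sub_self] at h1 h2
  have h4 : c 0 = 1 := rfl
  rw [EuclideanSpace.dist_eq, Real.sq_sqrt (by positivity), Fin.sum_univ_three]
  simp only [q, Real.dist_eq, sq_abs]
  simp
  have e : (r * c i - r * c j) ^ 2 + (r * s i - r * s j) ^ 2 =
      (r * r) * ((c i * c i + s i * s i) + (c j * c j + s j * s j) - 2 * (c i * c j + s i * s j)) := by
    ring
  rw [e, h1, h2, h3, h4]
  ring

lemma c_far {k : Fin 5} (hk : k = 2 ∨ k = 3) : 2 * (r * r) * (1 - c k) = 1 := by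
  have e : c k = c2 := by rcases hk with rfl | rfl <;> rfl
  have h0 := five
  rw [e, hr, c2]
  nlinarith

lemma c_near {k : Fin 5} (hk : k = 1 ∨ k = 4) : 2 * (r * r) * (1 - c k) = (3 - √5) / 2 := by
  have e : c k = c1 := by rcases hk with rfl | rfl <;> rfl
  have h0 := five
  rw [e, hr, c1]
  nlinarith

lemma far {i j : Fin 5} (hk : i - j = 2 ∨ i - j = 3) : dist (q i) (q j) = 1 := by
  have h1 := dist_sq i j
  rw [c_far hk] at h1
  have h2 : (0 : ℝ) ≤ dist (q i) (q j) := dist_nonneg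
  nlinarith

lemma cases4 : ∀ i j : Fin 5, i ≠ j → i - j = 1 ∨ i - j = 2 ∨ i - j = 3 ∨ i - j = 4 := by decide

lemma cases5 : ∀ i j : Fin 5, i - j = 0 ∨ i - j = 1 ∨ i - j = 2 ∨ i - j = 3 ∨ i - j = 4 := by
  decide

lemma cases3 : ∀ i j k : Fin 5, i ≠ j → j ≠ k → i ≠ k →
    (i - j = 2 ∨ i - j = 3) ∨ (j - k = 2 ∨ j - k = 3) ∨ (i - k = 2 ∨ i - k = 3) := by decide

theorem main : S_PENT := by
  refine ⟨q, ⟨⟨?_, ?_, ?_⟩, ?_, ?_⟩⟩
  · intro i j hij
    by_contra hne
    have h1 := dist_sq i j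
    rw [hij, dist_self] at h1
    have h2 := cases4 i j hne
    have h3 := five_lt
    rcases h2 with h2 | h2 | h2 | h2
    · rw [c_near (Or.inl h2)] at h1; nlinarith
    · rw [c_far (Or.inl h2)] at h1; nlinarith
    · rw [c_far (Or.inr h2)] at h1; nlinarith
    · rw [c_near (Or.inr h2)] at h1; nlinarith
  · intro i j
    have h1 := dist_sq i j
    have h2 := cases5 i j
    have h3 := two_lt
    have h4 : (0 : ℝ) ≤ dist (q i) (q j) := dist_nonneg
    have h5 : dist (q i) (q j) ^ 2 ≤ 1 := by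
      rcases h2 with h2 | h2 | h2 | h2 | h2
      · rw [h1, h2]
        have : c 0 = 1 := rfl
        rw [this]; norm_num
      · rw [h1, c_near (Or.inl h2)]; linarith
      · rw [h1, c_far (Or.inl h2)]
      · rw [h1, c_far (Or.inr h2)]
      · rw [h1, c_near (Or.inr h2)]; linarith
    nlinarith
  · intro i j k hij hjk hik
    have h2 := cases3 i j k hij hjk hik
    rcases h2 with h2 | h2 | h2
    · exact Or.inl (far h2)
    · exact Or.inr (Or.inl (far h2))
    · exact Or.inr (Or.inr (far h2))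
  · intro i
    have h1 := key i i
    rw [sub_self] at h1
    have h4 : c 0 = 1 := rfl
    rw [EuclideanSpace.norm_sq_eq, Fin.sum_univ_three]
    simp only [q, Real.norm_eq_abs, sq_abs]
    simp
    have e : (r * c i) ^ 2 + (r * s i) ^ 2 + h ^ 2 = (r * r) * (c i * c i + s i * s i) + h * h := by
      ring
    rw [e, h1, h4, hr, hh]
    ring
  · have hpos : 0 < h := by
      unfold h
      have := two_lt
      positivity
    refine ⟨!₂[0, 0, 1 / h], fun i => ?_⟩
    simp only [q, PiLp.inner_apply, Fin.sum_univ_three]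
    simp
    field_simp

end

end Pool.Agent.Helper65.AED.PENT
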